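import Pool.Agent.Lib_MP_ad0b27_co.Final

/-!
MP_ad0b27_co, repeated distances from every point on the sphere.

For every algebraic distance in the open interval from 0 to 2 there are, for every large `n`, sets
of `n` points on the unit sphere in which every point has at least `exp((log n)^(1/2-ε))` others
at exactly that distance.
-/

open Filter

namespace Pool.Agent.Results.MP_ad0b27_co.AlgebraicDistances

/-- The function `f_α(n)` of the problem: the largest `k` such that some set of `n` points of the
unit sphere of three dimensional Euclidean space has, for each of its points `p`, at least `k`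
points `q` of the set with `‖p - q‖ = α`. -/
noncomputable def f (α : ℝ) (n : ℕ) : ℕ :=
  sSup {k : ℕ | ∃ P : Finset (EuclideanSpace ℝ (Fin 3)), P.card = n ∧ (∀ p ∈ P, ‖p‖ = 1) ∧
    ∀ p ∈ P, k ≤ {q | q ∈ P ∧ ‖p - q‖ = α}.ncard}

theorem result (α : ℝ) (hα0 : 0 < α) (hα2 : α < 2) (hα : IsAlgebraic ℚ α) (ε : ℝ) (hε : 0 < ε) :
    ∀ᶠ n : ℕ in atTop, Real.exp (Real.log n ^ (1 / 2 - ε)) ≤ (f α n : ℝ) := by
  classical
  filter_upwards [SphereRep.final α hα0 hα2 hα ε hε, eventually_ge_atTop 1] with n hn hn1
  obtain ⟨Q, k, hQ, hconf, hk⟩ := hn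
  refine hk.trans ?_
  have hle : k ≤ f α n := by
    unfold f
    apply le_csSup
    · refine ⟨n, ?_⟩
      rintro k' ⟨P, hP, -, hP2⟩
      obtain ⟨p, hp⟩ := Finset.card_pos.mp (by omega : 0 < P.card)
      refine (hP2 p hp).trans ?_
      have h1 : {q | q ∈ P ∧ ‖p - q‖ = α} ⊆ (P : Set (EuclideanSpace ℝ (Fin 3))) :=
        fun q hq => hq.1
      have h2 := Set.ncard_le_ncard h1 P.finite_toSet
      rw [Set.ncard_coe_finset] at h2
      omega
    · refine ⟨Q, hQ, hconf.1, fun p hp => (hconf.2 p hp).trans ?_⟩
      unfold SphereRep.deg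
      rw [← Set.ncard_coe_finset]
      apply le_of_eq
      congr 1
      ext q
      simp [dist_eq_norm]
  exact_mod_cast hle

end Pool.Agent.Results.MP_ad0b27_co.AlgebraicDistances
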