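import Pool.Agent.Lib_ad0b27_coord.Lower2

/-!
MP_ad0b27_co, repeated distances from every point on the sphere.

For a subfield `K` of the reals and a distance `α` in the open interval from 0 to 2 which is
transcendental over `K`, the analogue of the function `f_α(n)` of the problem for the sets
`P` one coordinate of which (in some direction) takes all its values in `K` has order `√(log n)`.
-/

open Filter

namespace Pool.Agent.Results.MP_ad0b27_co.OneCoordinate

/-- The function `f_α(n)` of the problem restricted to the sets one coordinate of which takes its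
values in `K`: the largest `k` such that some set of `n` points of the unit sphere, for which there
is a unit vector `v` with `⟨v, p⟩ ∈ K` for all its points `p`, has for each of its points `p` at
least `k` points `q` of the set with `‖p - q‖ = α`. -/
noncomputable def f (K : Subfield ℝ) (α : ℝ) (n : ℕ) : ℕ :=
  sSup {k : ℕ | ∃ P : Finset (EuclideanSpace ℝ (Fin 3)), P.card = n ∧ (∀ p ∈ P, ‖p‖ = 1) ∧
    (∃ v : EuclideanSpace ℝ (Fin 3), ‖v‖ = 1 ∧ ∀ p ∈ P, inner ℝ v p ∈ K) ∧
    ∀ p ∈ P, k ≤ {q | q ∈ P ∧ ‖p - q‖ = α}.ncard}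

lemma ncard_eq (α : ℝ) (P : Finset (EuclideanSpace ℝ (Fin 3))) (p : EuclideanSpace ℝ (Fin 3)) :
    {q | q ∈ P ∧ ‖p - q‖ = α}.ncard = OneCoord.deg α P p := by
  classical
  rw [OneCoord.deg, ← Set.ncard_coe_finset]
  congr 1
  ext q
  simp

theorem result (K : Subfield ℝ) (α : ℝ) (hα0 : 0 < α) (hα2 : α < 2)
    (hα : Transcendental K α) :
    (∀ n : ℕ, 1 ≤ n → (f K α n : ℝ) ≤ 91 * √(Real.logb 2 n + 1)) ∧
    ∀ᶠ n : ℕ in atTop, √(Real.logb 2 n) / 4 ≤ (f K α n : ℝ) := by
  classical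
  have hdeg : ∀ n : ℕ, 1 ≤ n → ∀ k : ℕ, (∃ P : Finset (EuclideanSpace ℝ (Fin 3)),
      P.card = n ∧ (∀ p ∈ P, ‖p‖ = 1) ∧
      (∃ v : EuclideanSpace ℝ (Fin 3), ‖v‖ = 1 ∧ ∀ p ∈ P, inner ℝ v p ∈ K) ∧
      ∀ p ∈ P, k ≤ {q | q ∈ P ∧ ‖p - q‖ = α}.ncard) →
      (k : ℝ) ≤ 91 * √(Real.logb 2 n + 1) := by
    rintro n hn k ⟨P, hPn, hP, ⟨v, hv, hK⟩, hk⟩
    have hne : P.Nonempty := Finset.card_pos.mp (by omega)
    obtain ⟨p, hp, hb⟩ := OneCoord.exists_small_degree_axis K α hα v hv P hne hP hK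
    have h1 := hk p hp
    rw [ncard_eq] at h1
    rw [hPn] at hb
    have h2 : (k : ℝ) ≤ OneCoord.deg α P p := by exact_mod_cast h1
    exact h2.trans hb
  constructor
  · intro n hn
    set S : Set ℕ := {k : ℕ | ∃ P : Finset (EuclideanSpace ℝ (Fin 3)), P.card = n ∧
      (∀ p ∈ P, ‖p‖ = 1) ∧
      (∃ v : EuclideanSpace ℝ (Fin 3), ‖v‖ = 1 ∧ ∀ p ∈ P, inner ℝ v p ∈ K) ∧
      ∀ p ∈ P, k ≤ {q | q ∈ P ∧ ‖p - q‖ = α}.ncard} with hS
    have hf : f K α n = sSup S := rfl
    rcases S.eq_empty_or_nonempty with h | h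
    · rw [hf, h, csSup_empty]
      simp only [Nat.bot_eq_zero, Nat.cast_zero]
      positivity
    · have hb : BddAbove S := by
        refine ⟨⌊91 * √(Real.logb 2 n + 1)⌋₊, fun k hk => ?_⟩
        exact Nat.le_floor (hdeg n hn k hk)
      rw [hf]
      exact hdeg n hn _ (Nat.sSup_mem h hb)
  · have hlog : Tendsto (fun n : ℕ => Real.logb 2 n) atTop atTop :=
      (Real.tendsto_logb_atTop (by norm_num)).comp tendsto_natCast_atTop_atTop
    filter_upwards [hlog.eventually_ge_atTop 144, eventually_ge_atTop 1] with n hn hn1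
    set L : ℝ := Real.logb 2 n with hL
    have hs12 : 12 ≤ √L := by
      rw [show (12 : ℝ) = √144 by
        rw [show (144 : ℝ) = 12 ^ 2 by norm_num, Real.sqrt_sq (by norm_num)]]
      exact Real.sqrt_le_sqrt hn
    have hsL : √L ^ 2 = L := Real.sq_sqrt (by linarith)
    set m : ℕ := ⌊√L / 2⌋₊ with hm
    have hm1 : (m : ℝ) ≤ √L / 2 := Nat.floor_le (by positivity)
    have hm2 : √L / 2 < m + 1 := Nat.lt_floor_add_one _
    have hm3 : 2 ≤ m := by
      have : (2 : ℝ) < m + 1 := by linarith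
      have h' : 2 < m + 1 := by exact_mod_cast this
      omega
    obtain ⟨k, hk⟩ : ∃ k, m = k + 2 := ⟨m - 2, by omega⟩
    have hnk : 2 ^ (4 * (k + 2) ^ 2) ≤ n := by
      have h1 : ((4 * (k + 2) ^ 2 : ℕ) : ℝ) ≤ Real.logb 2 n := by
        rw [← hk]
        push_cast
        rw [← hL, ← hsL]
        nlinarith
      rw [Real.le_logb_iff_rpow_le (by norm_num) (by exact_mod_cast hn1),
        Real.rpow_natCast] at h1
      exact_mod_cast h1
    obtain ⟨P, hPn, hP, hPk⟩ := OneCoord.good_of_large (K := K) hα0 hα2 k n hnk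
    have hle : k ≤ f K α n := by
      unfold f
      apply le_csSup
      · refine ⟨⌊91 * √(Real.logb 2 n + 1)⌋₊, fun k hk => ?_⟩
        exact Nat.le_floor (hdeg n hn1 k hk)
      · refine ⟨P, hPn, fun p hp => (hP p hp).1, ⟨EuclideanSpace.single 2 1, by simp, ?_⟩, ?_⟩
        · intro p hp
          rw [OneCoord.inner3]
          simpa using (hP p hp).2.1
        · intro p hp
          rw [ncard_eq]
          exact hPk p hp
    have h2 : (k : ℝ) ≤ f K α n := by exact_mod_cast hle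
    have h3 : (m : ℝ) = k + 2 := by rw [hk]; push_cast; ring
    linarith

end Pool.Agent.Results.MP_ad0b27_co.OneCoordinate
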